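import Pool.Agent.Q221.Sm.GlobX

/-!
# The twisted monodromy conjecture: from smooth varieties to polynomials

Q1 is about functions on all smooth irreducible varieties `X`. We show that it is enough to prove it
for polynomials on affine spaces, and for the explicit polynomials of triple systems.

Let `X` be an irreducible smooth complete intersection `g_1 = ⋯ = g_r = 0` in `𝔸 ^ n` (every smooth
variety is covered by such `X`, and the zeta functions and the sets of eigenvalues are those of the
pieces of a covering) and let `f` be a function on `X`, given by a polynomial. Then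
`F = f + y_1 g_1 + ⋯ + y_r g_r` is a polynomial on `𝔸 ^ (n + r)`. We prove, for every `e ≥ 1`,

* if `b(s) f ^ s = P(s) f ^ (s + 1)` on `X`, then `(s + 1) b(s + r)` is a `b`-function of `F`;
* if `s₀ ≠ r, -1` is a pole of the twisted topological zeta function `Z^(e)` of `f` on `X`, then
  `s₀ - r` is a pole of `Z^(e)` of `F`;
* hence Q1 for `F` implies Q1 for `f` on `X`.

Method. Functional equations: on the open set where a minor `J` of order `r` of the Jacobian matrix is
invertible there are commuting derivations `δ_k` with `δ_k g_l = 0` or `1`; with Taylor's formula along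
the `δ_k` the operator `P(s)` on `X` is lifted to an operator which commutes with the `δ_k` up to high
powers of the `g_k`, and `P(s)` is turned into a differential operator in `x, y` for `F`, the powers of
`g_k` being produced by `∂_{y_k}`. This gives the equation after multiplication by a power of `J`; the
equations on the different open sets are glued with `∂_{y_k} F ^ M = M g_k F ^ (M - 1)`.
Zeta functions: `f(φ) + ∑ y_k g_k(φ) = w ^ k t ^ d` is, for a given jet `φ` of `𝔸 ^ n`, a system of linear
equations for the jets `y_k`, which is surjective in the degrees from the order of contact of `φ` with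
`X` on; these orders are treated with the smoothness of `X` (Hensel's lemma for jets).
-/

set_option autoImplicit false

namespace Pool.Agent.Results.MP_b22d1f_ag.SmoothVarieties

open MvPolynomial Pool.Agent.Q221.Sm Pool.Agent.Q223.MM Pool.Agent.Q223.TW Pool.Agent.Q42.CU
open Pool.Agent.TH192.MU
open Pool.Agent.W428.MOT (MK Lu)
open Pool.Agent.H628R4.TP (IsBFunction)

/-- **Q1 for functions on smooth complete intersections follows from Q1 for polynomials.**

`IsCI g` and `(Ideal.span (Set.range g)).IsPrime`: `X = {g_1 = ⋯ = g_r = 0}` is a smooth irreducible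
complete intersection in `𝔸 ^ n`, with reduced equations. `FN f g` is the polynomial
`F = f + ∑ y_k g_k` in `n + r` variables.

`IsBX f g b`: there is `P(s)` in the algebra generated by `s`, the functions and the vector fields on `X`
with `b(s) f ^ s = P(s) f ^ (s + 1)` on `X`. `IsBFunction F b` is the same on an affine space.

`IsTwistedTopX E ε g f e Z`: `Z` is the twisted topological zeta function `Z^(e)` of `f` on `X`; it
is computed from the classes of the covers of the sets of jets of `X`. `IsTwistedTop E ε F e Z` is the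
same on an affine space. `WeakTwX E ε e g f`: for every pole `s₀` of `Z^(e)` of `f` on `X` and
every `b` with `IsBX f g b` (for instance the Bernstein-Sato polynomial) there is `j ∈ ℤ` with
`b(s₀ + j) = 0`. By the theorem of Malgrange and Kashiwara this is Q1 for `X`, `f` and `e`.
`StrongTwX E ε e g f`: every pole `s₀ ≠ 0` is a root of every such `b`. `WeakTw`, `StrongTw` are the
same for polynomials on affine spaces.

First part: the pairs `(X, f)` one by one. Second part: Q1 for all `(X, f)` is equivalent to Q1 for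
the nonconstant polynomials, and to Q1 for the polynomials
`Phi 24⁻¹ E c = (∑ z_i ^ 3) / 24 + ∑_j y_j (∑_{i ∈ E j} z_i - c j)` of triple systems (`IsTriple S E c`:
every `E j` has three elements and `c j = 0`, or one element and `c j = 0` or `c j ∈ S`; the `c j` which
are not zero are different) with minimal exponent larger than `N` (`MinExp N F`: some `(s + 1) c(s)` is a
`b`-function of `F`, `c ≠ 0` and the roots of `c` have real part `< -N`); if the equations of `X` and `f`
have coefficients in the `ℚ`-span of `S ∋ 1`, the constants are in `S`. -/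
theorem result :
    (∀ (n r : ℕ) (g : Fin r → MvPolynomial (Fin n) ℂ) (f : MvPolynomial (Fin n) ℂ), IsCI g →
      (Ideal.span (Set.range g)).IsPrime →
      (∀ b : Polynomial ℂ, IsBX f g b → IsBFunction (FN f g)
        ((Polynomial.X + 1) * b.comp (Polynomial.X + Polynomial.C (r : ℂ)))) ∧
      ∀ (R : Type) [CommRing R] [IsDomain R] (E : MK ℂ →+* R) (ε : R →+* ℂ),
        ε (E ((Lu ℂ : (MK ℂ)ˣ) : MK ℂ)) = 1 → E ((Lu ℂ : (MK ℂ)ˣ) : MK ℂ) ≠ 1 →
        ∀ e : ℕ, 0 < e →
        (∀ Z, IsTwistedTopX E ε g f e Z → ∃ Z', IsTwistedTop E ε (FN f g) e Z' ∧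
          ∀ s₀ : ℂ, s₀ ≠ r → s₀ ≠ -1 → Z.denom.eval s₀ = 0 → Z'.denom.eval (s₀ - r) = 0) ∧
        (WeakTw E ε e (FN f g) → WeakTwX E ε e g f) ∧
        (StrongTw E ε e (FN f g) → StrongTwX E ε e g f)) ∧
    ∀ (R : Type) [CommRing R] [IsDomain R] (E' : MK ℂ →+* R) (ε : R →+* ℂ),
      ε (E' ((Lu ℂ : (MK ℂ)ˣ) : MK ℂ)) = 1 → E' ((Lu ℂ : (MK ℂ)ˣ) : MK ℂ) ≠ 1 →
      ∀ e : ℕ, 0 < e →
      ((∀ (n : ℕ) (f : MvPolynomial (Fin n) ℂ), f.totalDegree ≠ 0 → WeakTw E' ε e f) ↔
        ∀ (n r : ℕ) (g : Fin r → MvPolynomial (Fin n) ℂ) (f : MvPolynomial (Fin n) ℂ), IsCI g →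
          (Ideal.span (Set.range g)).IsPrime → WeakTwX E' ε e g f) ∧
      ((∀ (n : ℕ) (f : MvPolynomial (Fin n) ℂ), f.totalDegree ≠ 0 → StrongTw E' ε e f) ↔
        ∀ (n r : ℕ) (g : Fin r → MvPolynomial (Fin n) ℂ) (f : MvPolynomial (Fin n) ℂ), IsCI g →
          (Ideal.span (Set.range g)).IsPrime → StrongTwX E' ε e g f) ∧
      ∀ S : Set ℂ, (1 : ℂ) ∈ S → ∀ N : ℕ,
      ((∀ (n r : ℕ) (g : Fin r → MvPolynomial (Fin n) ℂ) (f : MvPolynomial (Fin n) ℂ), IsCI g →
          (Ideal.span (Set.range g)).IsPrime → (∀ k d, coeff d (g k) ∈ Submodule.span ℚ S) →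
          (∀ d, coeff d f ∈ Submodule.span ℚ S) → WeakTwX E' ε e g f) ↔
        ∀ (k r : ℕ) (E : Fin r → Finset (Fin k)) (c : Fin r → ℂ), 0 < k → IsTriple S E c →
          MinExp N (Phi 24⁻¹ E c) → WeakTw E' ε e (Phi 24⁻¹ E c)) := by
  refine ⟨fun n r g f hg hI => ⟨fun b hb => isBFunction_FN hg hb,
    fun R _ _ E ε h1 hu e he => ⟨fun Z hZ => twisted_FN E ε h1 hu hg (card_le hg hI.ne_top) f hZ,
      reduceX E ε h1 hu hg hI f he⟩⟩,
    fun R _ _ E' ε h1 hu e he => ⟨⟨fun h n r g f hg hI => weakX_of E' ε h1 hu hg hI f he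
      (h _ _), fun h n f _ => weakTw_of E' ε (h n 0 Fin.elim0 f isCI_elim0 prime_elim0)⟩,
      ⟨fun h n r g f hg hI => strongX_of E' ε h1 hu hg hI f he
      (h _ _), fun h n f _ => strongTw_of E' ε (h n 0 Fin.elim0 f isCI_elim0 prime_elim0)⟩,
      fun S hS N => glob_span E' ε h1 hu he S hS N⟩⟩

end Pool.Agent.Results.MP_b22d1f_ag.SmoothVarieties
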