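import Pool.Agent.Q223.TW.Red

/-!
# The twisted monodromy conjecture: reduction to trilinear polynomials with mild singularities

A *program* consists of a forest on the nodes `0, …, κ - 1` (`o m` is the parent of the node `m`, and
comes before `m`; `o m = none` for the roots), of a label `v m ∈ {1, …, n}` for every node and of a
coefficient `c m`. Its polynomial is

`F = ∑_m c_m z_m + ∑_m y_m (z_m - z_(o m) x_(v m))`  (with `z_none = 1`),

which is linear in each of the three groups of variables `x`, `y`, `z`, and has at most four monomials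
per node. The conjecture Q1 for `e ≥ 2` and for all nonconstant `f ∈ ℂ[x_1, …, x_n]` with `f(0) = 0` is
equivalent to its case of the polynomials of programs whose minimal exponent is larger than any given
`N`. If the coefficients of `f` are in the additive group generated by a set `S` (which contains `1`),
the coefficients `c_m` can be taken from `S ∪ -S ∪ {0}`. In particular the conjecture for `f ∈ ℤ[x]` is
equivalent to the conjecture for such `F` with coefficients `0`, `1`, `-1`.

The twisted topological zeta functions `Z^(e)` are taken from the spaces of jets, as Denef and Loeser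
do (1998): `JetC f k d` is the space of the pairs `(φ, w)` of a `d`-jet `φ` and `w ≠ 0` with
`f(φ) = w ^ k t ^ d mod t ^ (d + 1)`, `zetaC f k` is the series of their classes, `Y_k` its topological
zeta function (`IsTopZeta`, for a realisation `E` of the Grothendieck ring in a domain and a homomorphism
`ε` with `ε(E(𝕃)) = 1`, `E(𝕃) ≠ 1`), and `φ(e) Z^(e) = ∑_{i k = e} μ(i) Y_k` (`IsTwistedTop`).

Method. Horner's scheme of `f` along a forest gives an automorphism of the polynomial ring which takes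
`f(x) + ∑ y_m z_m` to `F`, and there are such schemes for every large number `κ` of nodes. The addition
of a plane `y z` shifts the roots of `b_f(s) / (s + 1)` by `-1`. We compute the classes of the covers
for `f + y z`: with `U = 𝕃⁻¹ T`,

`zetaC (f + y z) k (T) = 𝕃 zetaC f k (U) + (𝕃 - 1) ^ 2 ((𝕃 ^ n - U (a_0 + zetaC f 1 (U))) / (1 - U) ^ 2 - 𝕃 ^ n)`

where `a_0 = [f ≠ 0]`, so that `Z^(e)(s)` of `f + y z` is `Z^(e)(s + 1)` of `f` if `e ≥ 2`.
-/

set_option autoImplicit false

namespace Pool.Agent.Results.MP_b22d1f_ag.TrilinearReduction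

open MvPolynomial Pool.Agent.Q223.MM Pool.Agent.Q223.TW Pool.Agent.TH192.MU
open Pool.Agent.W428.MOT (MK Lu)

/-- **Q1 for `e ≥ 2` is equivalent to its case of the trilinear polynomials of programs with minimal
exponent larger than `N`.**

`WeakTw E ε e f`: for every pole `s₀` of the twisted topological zeta function `Z^(e)` of `f`
(`IsTwistedTop E ε f e Z`) and every `b` with `b(s) f ^ s = P(s) f ^ (s + 1)`, `P(s)` in the Weyl algebra,
polynomial in `s` (for instance `b = b_f`), there is `j ∈ ℤ` with `b(s₀ + j) = 0`. By the theorem of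
Malgrange and Kashiwara this is the conjecture Q1 for `f` and `e`: `exp(2 π i s₀)` is an eigenvalue of
the monodromy at a point of `f = 0` if and only if `b_f(s₀ + j) = 0` for some `j ∈ ℤ`.
`MinExp N F`: there is `c ≠ 0` such that `(s + 1) c(s)` satisfies such a functional equation for `F`, and
the roots of `c` have real part `< -N`; so the minimal exponent of `F` is larger than `N`.

`Forest o`: `o m = some m'` implies `m' < m`. `prog o v c` is the polynomial
`∑ c_m z_m + ∑ y_m (z_m - z_(o m) x_(v m))`, `z_none = 1`. `t ∈ coeffs S`: `t = 0` or `t ∈ S` or `-t ∈ S`.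

First part: for every `f` and `N` there are programs with all large numbers of nodes `κ`, whose
polynomials have minimal exponent larger than `N`, such that for all `E`, `ε`, `e ≥ 2` the conjecture
for one of them implies the conjecture for `f`.
Second part: the equivalence. -/
theorem result (S : Set ℂ) (hS : (1 : ℂ) ∈ AddSubgroup.closure S) (N : ℕ) :
    (∀ (n : ℕ) (f : MvPolynomial (Fin n) ℂ), f.totalDegree ≠ 0 → eval 0 f = 0 →
      (∀ d, coeff d f ∈ AddSubgroup.closure S) →
      ∃ κ₁ : ℕ, ∀ κ, κ₁ ≤ κ → ∃ (o : Fin κ → Option (Fin κ)) (v : Fin κ → Fin n)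
        (c : Fin κ → ℂ), Forest o ∧ (∀ m, c m ∈ coeffs S) ∧ MinExp N (prog o v c) ∧
        ∀ (R : Type) [CommRing R] [IsDomain R] (E : MK ℂ →+* R) (ε : R →+* ℂ),
          ε (E ((Lu ℂ : (MK ℂ)ˣ) : MK ℂ)) = 1 → E ((Lu ℂ : (MK ℂ)ˣ) : MK ℂ) ≠ 1 →
          ∀ e : ℕ, 1 < e → WeakTw E ε e (prog o v c) → WeakTw E ε e f) ∧
    ∀ (R : Type) [CommRing R] [IsDomain R] (E : MK ℂ →+* R) (ε : R →+* ℂ),
      ε (E ((Lu ℂ : (MK ℂ)ˣ) : MK ℂ)) = 1 → E ((Lu ℂ : (MK ℂ)ˣ) : MK ℂ) ≠ 1 →
      ∀ e : ℕ, 1 < e →
      ((∀ (n : ℕ) (f : MvPolynomial (Fin n) ℂ), f.totalDegree ≠ 0 → eval 0 f = 0 →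
          (∀ d, coeff d f ∈ AddSubgroup.closure S) → WeakTw E ε e f) ↔
        ∀ (n κ : ℕ) (o : Fin κ → Option (Fin κ)) (v : Fin κ → Fin n) (c : Fin κ → ℂ), 0 < κ →
          Forest o → (∀ m, c m ∈ coeffs S) → MinExp N (prog o v c) →
          WeakTw E ε e (prog o v c)) := by
  have key : ∀ (n : ℕ) (f : MvPolynomial (Fin n) ℂ), f.totalDegree ≠ 0 → eval 0 f = 0 →
      (∀ d, coeff d f ∈ AddSubgroup.closure S) →
      ∃ κ₁ : ℕ, ∀ κ, κ₁ ≤ κ → ∃ (o : Fin κ → Option (Fin κ)) (v : Fin κ → Fin n)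
        (c : Fin κ → ℂ), Forest o ∧ (∀ m, c m ∈ coeffs S) ∧ MinExp N (prog o v c) ∧
        ∀ (R : Type) [CommRing R] [IsDomain R] (E : MK ℂ →+* R) (ε : R →+* ℂ),
          ε (E ((Lu ℂ : (MK ℂ)ˣ) : MK ℂ)) = 1 → E ((Lu ℂ : (MK ℂ)ˣ) : MK ℂ) ≠ 1 →
          ∀ e : ℕ, 1 < e → WeakTw E ε e (prog o v c) → WeakTw E ε e f := by
    intro n f hf h0 hfS
    obtain ⟨κ₁, h⟩ := reduce S hS N n f hf h0 hfS
    refine ⟨κ₁, fun κ hκ => ?_⟩
    obtain ⟨o, v, c, ho, hc, hm, h2⟩ := h κ hκ
    exact ⟨o, v, c, ho, hc, hm, fun R _ _ E ε h1 hu e he =>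
      (h2 R E ε h1 hu e (zero_lt_one.trans he)).1⟩
  refine ⟨key, ?_⟩
  intro R _ _ E ε h1 hu e he
  constructor
  · intro h n κ o v c hκ _ hc _
    exact h _ (prog o v c) (prog_deg o v c hκ) (prog_eval o v c) fun d => prog_coeff hS o v c hc d
  · intro h n f hf h0 hfS
    obtain ⟨κ₁, h2⟩ := key n f hf h0 hfS
    obtain ⟨o, v, c, ho, hc, hm, h3⟩ := h2 (κ₁ + 1) (Nat.le_succ κ₁)
    exact h3 R E ε h1 hu e he (h n (κ₁ + 1) o v c (Nat.succ_pos κ₁) ho hc hm)

end Pool.Agent.Results.MP_b22d1f_ag.TrilinearReduction
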