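import Pool.Agent.Q57.QT.All
import Pool.Agent.Q57.QT.Tw

/-!
# The twisted monodromy conjecture for products of powers of forms over tuples of ideals: plane ideals,
cones and systems of quadrics

Let `I_t = (f_(t,1), …, f_(t,r))`, `t = 1, …, T`, be ideals of `ℂ[x_1, …, x_n]`, let
`F_t = ∑_j y_(t,j) f_(t,j)(x)`, where the `y_(t,j)` are further variables, and `f = ∏_t F_t ^ (a_t)`, `a_t ≥ 1`. We
prove Q1 for `f` and all `e ≥ 1`, in the strong form, if the tuple `(I_t)` is in a class `TQ glob` of tuples.
The function `Z^(e)` is the topological zeta function if `e` divides all `a_t` (so the case `e > 1` is not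
empty), and it is zero otherwise.

**The classes.** `TQ k n T r f`, `k = cov, glob, germ`, are classes of tuples of `T` ideals
`I_t = (f_(t,1), …, f_(t,r))` of `ℂ[x_1, …, x_n]`: ideals on `ℂ ^ n` covered by charts, ideals on `ℂ ^ n`,
germs at the origin. A *chart* for `(I_t)` consists of polynomials `a_1, …, a_c, w` and of `T` families
`h_t` of polynomials in `c` variables such that for each `t` the `f_(t,j)` and the
`h_(t,k)(a_1/w, …, a_c/w)` generate the same ideal of `ℂ[x]_w`; the point `p` is in the chart if `w(p) ≠ 0`,
`a_u(p) = 0` for all `u`, and a given `c × c` minor of the Jacobian matrix of the `a_u` does not vanish at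
`p`. `TQ` are the smallest classes with:
* `TQ cov` contains **all tuples of nonzero ideals of `ℂ[x, y]`**;
* *cones*: let the `f_(t,j)` be forms of degree `d_t` in `n + 1` variables, not all `d_t = 0`, whose charts
  `x_i = 1` are in `TQ cov`, such that `n + 1` of the products `∏_t f_(t,j_t)` are algebraically independent,
  or that `-(n + 1)/∑ a_t d_t` is known to be a root of the local `b`-functions of `∏ I_t ^ (a_t)` at the
  origin for all `a ≥ 1` (`TForm`); then the tuple is in `TQ cov`. Variants for forms in a part of the
  variables with charts only at the points outside the vertex are in `TQ germ` and `TQ glob`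
  (constructors `cone`, `gcone`);
* *charts*: `TQ cov` contains the tuples such that all points at which one of the `I_t` is not the unit
  ideal are in finitely many charts with tuples in `TQ germ`; `TQ cov` is contained in `TQ glob` and `TQ germ`;
* *products, tuples, monomials*: with `(I_t)` and `(I'_t)` in disjoint sets of variables the classes contain
  `(I_t I'_t)` (for all `k`) and the tuple `(I_1, …, I_T, I'_1, …, I'_T')`; and with `(I_t)` all tuples of products
  of powers `∏_t I_t ^ (m_(s,t))`, `s = 1, …, T'`, such that each `I_t` occurs;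
* *hypersurfaces*: with `(I_t)` the classes `TQ glob` and `TQ germ` contain the tuple of the polynomials
  `F_t = ∑_j y_(t,j) f_(t,j)(x)`;
* *formal coordinates*: `TQ germ` contains all tuples which in `ℂ[[x]]` have this form in a part of a system
  of formal coordinates;
* *single ideals* (`T = 1`) of the classes `QC`, `Tower` and `Glob` of our hand-ins `QuadricSystems` and
  `ConeTowers` on the rows of the monodromy conjecture: for example all ideals which are
  generated by polynomials of degree at most two in three variables, or by quadratic forms in four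
  variables, ideals of subschemes of smooth quadric surfaces, and towers of cones over these.

Examples. (1) `f = ∏_t (∑_j y_(t,j) f_(t,j)(x_1, x_2)) ^ (a_t)` with arbitrary polynomials `f_(t,j)` in two
variables, not all zero for each `t`. (2) `f = ∏_t (∑_j y_(t,j) f_(t,j)(x_1, x_2, x_3)) ^ (a_t)` with forms of
degree `d_t` such that three of the products `∏_t f_(t,j_t)` are algebraically independent. (3) Products of
powers, in disjoint sets of variables, of polynomials `∑_j y_j q_j(x)`, `q_j` of degree at most two in three
variables, or quadratic forms in four variables.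

**The twisted zeta functions** `Z^(e)` are taken from the spaces of jets, as Denef and Loeser do: for a
character `α` of order `e` of the group of the roots of unity they form the series of the `α`-parts of the
classes of the covers `U_(d,k) = {(φ, w) | f(φ) = w ^ k t ^ d mod t ^ (d + 1), w ≠ 0}`, `e ∣ k`, of the sets of the
`d`-jets on which `f` has the order `d`; its Euler characteristic at `T = 𝕃 ^ (-s)` is `Z^(e)(s)`. The class
of `U_(d,k)` is the sum of its parts over all characters with `α ^ k = 1`, so the topological zeta function
`Y_k` of the series `∑_(d ≥ 1) [U_(d,k)] 𝕃 ^ (-n d) T ^ d` (`zetaC`) is `∑_(e ∣ k) φ(e) Z^(e)`, and `Z^(e)` is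
defined by `φ(e) Z^(e) = ∑_(i k = e) μ(i) Y_k` (`IsTwistedTop`). (These definitions and the argument for
`[U_(d,k)] = gcd(k, g) [U_(d,1)]`, `g = gcd(a_t)`, by a one-parameter group which scales the `y_(t,j)`, are in
the starting files, in their treatment of determinantal ideals.)

**Method.** By induction on the class the ideals `∏ I_t ^ (a_t)` have a motivic zeta function whose
denominator only has factors which belong to roots of all local functional equations: powers of ideals
(the roots `α / a` of `I ^ a`, by summing functional equations with multinomial coefficients), the products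
`∏ (∑_j y_(t,j) f_(t,j)) ^ (a_t)`, cones, products in disjoint variables, charts, plane ideals by a tree of
blow-ups in the motivic measure.
-/

set_option autoImplicit false

namespace Pool.Agent.Results.MP_b22d1f_ag.TupleTowersTwisted

open MvPolynomial Pool.Agent.Q57.QT
open Pool.Agent.W428.MOT (MK Lu)
open Pool.Agent.TH192.MU (IsTopZeta IsTwistedTop zetaC)
open Pool.Agent.H628R4.TP (IsBFunction)

/-- **The twisted monodromy conjecture for `f = ∏_t F_t ^ (a_t)`, `F_t = ∑_j y_(t,j) f_(t,j)(x)`** (`hypT`), where
the tuple of the ideals `(f_(t,1), …, f_(t,r))` is in the class `TQ glob`.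

`Z` is the twisted topological zeta function `Z^(e)` of `f` (`IsTwistedTop E ε f e Z`), for a realisation `E`
of the Grothendieck ring with values in a domain `R` and `ε : R → ℂ` with `ε (E 𝕃) = 1` and `E 𝕃 ≠ 1`; for
instance the Euler characteristic, from the Hodge-Deligne polynomials. If `e` divides all `a_t` then `Z` is
the topological zeta function of `∑_(d ≥ 1) [U_(d,1)] 𝕃 ^ (-n d) T ^ d`, that is `Z^(1)`, and otherwise `Z = 0`.
If `s₀` is a pole of `Z` then `b(s₀) = 0` for every `b` with `b(s) f ^ s = P(s) f ^ (s + 1)`, in particular for the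
Bernstein-Sato polynomial of `f`. By the theorem of Malgrange and Kashiwara, `exp(2 π i s₀)` is then an
eigenvalue of the monodromy of `f` at some point. -/
theorem result {n T r : ℕ} (f : Fin T → Fin r → MvPolynomial (Fin n) ℂ) (hf : TQ .glob n T r f)
    (hT : 0 < T) (a : Fin T → ℕ) (ha : ∀ t, 1 ≤ a t) (e : ℕ) (he : 1 ≤ e)
    {R : Type} [CommRing R] [IsDomain R] (E : MK ℂ →+* R) (ε : R →+* ℂ)
    (hε : ε (E ((Lu ℂ : (MK ℂ)ˣ) : MK ℂ)) = 1) (hE : E ((Lu ℂ : (MK ℂ)ˣ) : MK ℂ) ≠ 1)
    (Z : RatFunc ℂ) (hZ : IsTwistedTop E ε (∏ t, hypT f t ^ a t) e Z) :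
    ((∀ t, e ∣ a t) → IsTopZeta E ε (zetaC (∏ t, hypT f t ^ a t) 1) Z) ∧
    ((∃ t, ¬ e ∣ a t) → Z = 0) ∧
    ∀ s₀ : ℂ, Z.denom.eval s₀ = 0 → (∀ t, e ∣ a t) ∧
      ∀ b : Polynomial ℂ, IsBFunction (∏ t, hypT f t ^ a t) b → b.eval s₀ = 0 :=
  twisted_hypT f E ε hε hE tsteps hf hT a ha e he Z hZ

end Pool.Agent.Results.MP_b22d1f_ag.TupleTowersTwisted
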